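import Mathlib

/-!
# Extensions of tuples of numbers, for families of additive maps
-/

set_option autoImplicit false
set_option linter.unusedSectionVars false

namespace Pool.Agent.N113.SA

open Module

/-- finite tuples of numbers -/
structure Tup where
  κ : Type
  [fin : Fintype κ]
  t : κ → ℂ

attribute [instance] Tup.fin

/-- one more number -/
abbrev Tup.add (A : Tup) (w : ℂ) : Tup := ⟨Option A.κ, fun o => o.elim w A.t⟩

/-- The coordinates: the numbers `t i`, the values at these numbers, and further numbers. -/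
def co {α π κ : Type} (F : ℂ → α → ℂ) (p : π → ℂ) (t : κ → ℂ) : κ × Option α ⊕ π → ℂ :=
  Sum.elim (fun x => x.2.elim (t x.1) (F (t x.1))) p

/-- the values of an additive map at the coordinates -/
noncomputable def ev {σ : Type} (y : σ → ℂ) : (ℂ →ₗ[ℚ] ℂ) →ₗ[ℂ] (σ → ℂ) where
  toFun D := fun s => D (y s)
  map_add' _ _ := rfl
  map_smul' _ _ := rfl

/-- systems of additive maps -/
structure Sys (𝒟 : Tup → Submodule ℂ (ℂ →ₗ[ℚ] ℂ)) : Prop where
  alg : ∀ A, ∀ D ∈ 𝒟 A, ∀ a : ℂ, IsAlgebraic ℚ a → D a = 0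
  mono : ∀ (A B : Tup) (g : A.κ → B.κ), (∀ i, B.t (g i) = A.t i) → 𝒟 B ≤ 𝒟 A

variable {α π : Type} [Fintype α] [Fintype π] (F : ℂ → α → ℂ) (p : π → ℂ)
  (𝒟 : Tup → Submodule ℂ (ℂ →ₗ[ℚ] ℂ)) (G : Tup → Prop)

/-- The space of the vectors of the values of the maps `D` at the coordinates. -/
noncomputable def Der (A : Tup) : Submodule ℂ (A.κ × Option α ⊕ π → ℂ) := (𝒟 A).map (ev (co F p A.t))

/-- the map on the names of the coordinates -/
def cmap {A B : Tup} (g : A.κ → B.κ) : A.κ × Option α ⊕ π → B.κ × Option α ⊕ π :=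
  Sum.map (Prod.map g id) id

theorem co_comp {A B : Tup} {g : A.κ → B.κ} (hg : ∀ i, B.t (g i) = A.t i)
    (x : A.κ × Option α ⊕ π) : co F p B.t (cmap g x) = co F p A.t x := by
  rcases x with ⟨i, _ | a⟩ | a
  · exact hg i
  · exact congrArg (fun t : ℂ => F t a) (hg i)
  · rfl

/-- the vectors which vanish on a part of the tuple -/
noncomputable def Ker {A : Tup} (B : Tup) (g : A.κ → B.κ) :
    Submodule ℂ (B.κ × Option α ⊕ π → ℂ) :=
  Der F p 𝒟 B ⊓ LinearMap.ker (LinearMap.funLeft ℂ ℂ (cmap (α := α) (π := π) g))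

theorem mem_Ker {A B : Tup} {g : A.κ → B.κ} (hg : ∀ i, B.t (g i) = A.t i)
    (v : B.κ × Option α ⊕ π → ℂ) :
    v ∈ Ker F p 𝒟 B g ↔ ∃ D ∈ 𝒟 B, (v = fun x => D (co F p B.t x)) ∧
      ∀ x, D (co F p A.t x) = 0 := by
  constructor
  · rintro ⟨⟨D, hD, rfl⟩, h2⟩
    refine ⟨D, hD, rfl, fun x => ?_⟩
    have h3 := congrFun (LinearMap.mem_ker.1 h2) x
    rw [LinearMap.funLeft_apply] at h3
    change D (co F p B.t (cmap g x)) = 0 at h3
    rw [co_comp F p hg] at h3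
    exact h3
  · rintro ⟨D, hD, rfl, h⟩
    refine ⟨⟨D, hD, rfl⟩, LinearMap.mem_ker.2 (funext fun x => ?_)⟩
    rw [LinearMap.funLeft_apply, co_comp F p hg]
    exact h x

/-- extensions of tuples for which the space of vectors does not grow faster than the number of
points allows -/
def Ext (A B : Tup) : Prop :=
  G B ∧ ∃ g : A.κ → B.κ, (∀ i, B.t (g i) = A.t i) ∧
    finrank ℂ (Ker F p 𝒟 B g) + Fintype.card α * Fintype.card A.κ ≤
      Fintype.card α * Fintype.card B.κ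

variable {F p 𝒟 G}

theorem Ext.good {A B : Tup} (h : Ext F p 𝒟 G A B) : G B := h.1

theorem Ext.refl {A : Tup} (hA : G A) : Ext F p 𝒟 G A A := by
  refine ⟨hA, id, fun _ => rfl, ?_⟩
  have h1 : Ker F p 𝒟 A (id : A.κ → A.κ) = ⊥ := by
    rw [eq_bot_iff]
    rintro v ⟨-, h⟩
    rw [Submodule.mem_bot]
    funext x
    have h2 := congrFun (LinearMap.mem_ker.1 h) x
    rw [LinearMap.funLeft_apply] at h2
    have h3 : cmap (α := α) (π := π) (id : A.κ → A.κ) x = x := by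
      rcases x with ⟨i, a⟩ | a <;> rfl
    rw [h3] at h2
    exact h2
  rw [h1, finrank_bot, zero_add]

theorem Ext.trans (hS : Sys 𝒟) {A B C : Tup} (h : Ext F p 𝒟 G A B) (h' : Ext F p 𝒟 G B C) :
    Ext F p 𝒟 G A C := by
  obtain ⟨-, g, hg, h1⟩ := h
  obtain ⟨hC, g', hg', h2⟩ := h'
  have hgg : ∀ i, C.t ((g' ∘ g) i) = A.t i := fun i => by
    rw [Function.comp_apply, hg', hg]
  refine ⟨hC, g' ∘ g, hgg, ?_⟩
  let L : Ker F p 𝒟 C (g' ∘ g) →ₗ[ℂ] (B.κ × Option α ⊕ π → ℂ) :=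
    (LinearMap.funLeft ℂ ℂ (cmap g')).domRestrict (Ker F p 𝒟 C (g' ∘ g))
  have hL : ∀ v : Ker F p 𝒟 C (g' ∘ g), L v =
      fun x => (v : C.κ × Option α ⊕ π → ℂ) (cmap g' x) := fun v => rfl
  have h3 := L.finrank_range_add_finrank_ker
  have h4 : finrank ℂ (LinearMap.range L) ≤ finrank ℂ (Ker F p 𝒟 B g) := by
    refine Submodule.finrank_mono ?_
    rintro _ ⟨v, rfl⟩
    obtain ⟨D, hD, hv, h5⟩ := (mem_Ker F p 𝒟 hgg _).1 v.2
    refine (mem_Ker F p 𝒟 hg _).2 ⟨D, hS.mono B C g' hg' hD, ?_, h5⟩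
    rw [hL, hv]
    funext x
    exact congrArg D (co_comp F p hg' x)
  have h5 : finrank ℂ (LinearMap.ker L) ≤ finrank ℂ (Ker F p 𝒟 C g') := by
    rw [← Submodule.finrank_map_subtype_eq]
    refine Submodule.finrank_mono ?_
    rintro _ ⟨v, hv, rfl⟩
    exact ⟨v.2.1, hv⟩
  omega

theorem Ext.adm (hS : Sys 𝒟) {A B : Tup} (h : Ext F p 𝒟 G A B) {D : ℂ →ₗ[ℚ] ℂ}
    (hD : D ∈ 𝒟 B) : D ∈ 𝒟 A := by
  obtain ⟨-, g, hg, -⟩ := h
  exact hS.mono A B g hg hD

theorem Ext.vanish {A B : Tup} (h : Ext F p 𝒟 G A B) {D : ℂ →ₗ[ℚ] ℂ}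
    (hD : ∀ x, D (co F p B.t x) = 0) (x : A.κ × Option α ⊕ π) : D (co F p A.t x) = 0 := by
  obtain ⟨-, g, hg, -⟩ := h
  rw [← co_comp F p hg]
  exact hD _

variable (F p 𝒟) in
/-- the values of the maps at `x` are determined by the coordinates -/
def Det (A : Tup) (x : ℂ) : Prop :=
  ∀ D ∈ 𝒟 A, (∀ y, D (co F p A.t y) = 0) → D x = 0

theorem Det.ext (hS : Sys 𝒟) {A B : Tup} (h : Ext F p 𝒟 G A B) {x : ℂ} (hx : Det F p 𝒟 A x) :
    Det F p 𝒟 B x := fun D hD h0 => hx D (h.adm hS hD) (h.vanish h0)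

/-- **Adding a point.** -/
theorem ext_add (hS : Sys 𝒟) {A : Tup} {w : ℂ} (hG : G (A.add w)) (h : Det F p 𝒟 A w) :
    Ext F p 𝒟 G A (A.add w) := by
  have hg : ∀ i, (A.add w).t (some i) = A.t i := fun _ => rfl
  refine ⟨hG, some, hg, ?_⟩
  let φ : Ker F p 𝒟 (A.add w) (some : A.κ → (A.add w).κ) →ₗ[ℂ] (α → ℂ) :=
    (LinearMap.funLeft ℂ ℂ (fun a : α =>
      (Sum.inl (none, some a) : (A.add w).κ × Option α ⊕ π))).domRestrict _
  have hφ : Function.Injective φ := by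
    rw [← LinearMap.ker_eq_bot, eq_bot_iff]
    rintro ⟨v, hv⟩ h8
    rw [Submodule.mem_bot]
    apply Subtype.ext
    obtain ⟨D, hD, rfl, h0⟩ := (mem_Ker F p 𝒟 hg v).1 hv
    have hw := h D (hS.mono A (A.add w) some hg hD) h0
    funext x
    rcases x with ⟨_ | i, _ | a⟩ | a
    · exact hw
    · exact congrFun (LinearMap.mem_ker.1 h8) a
    · exact h0 (Sum.inl (i, none))
    · exact h0 (Sum.inl (i, some a))
    · exact h0 (Sum.inr a)
  have h6 := LinearMap.finrank_le_finrank_of_injective hφ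
  rw [finrank_pi] at h6
  have h7 : Fintype.card (A.add w).κ = Fintype.card A.κ + 1 := Fintype.card_option
  rw [h7, mul_add, mul_one]
  omega

variable (F p 𝒟 G) in
/-- the property which is needed: the rule for squares after an extension -/
def Squares : Prop := ∀ A, G A → ∀ x, Det F p 𝒟 A x →
  ∃ B, Ext F p 𝒟 G A B ∧ ∀ D ∈ 𝒟 B, D (x ^ 2) = 2 * x * D x

end Pool.Agent.N113.SA
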