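import Pool.Agent.N113.SA.Lin

/-!
# Lattices and their multipliers
-/

set_option autoImplicit false

namespace Pool.Agent.N113.SA

open Module

/-- `τ` is quadratic -/
def Quad (τ : ℂ) : Prop := ∃ a b c : ℤ, a ≠ 0 ∧ (a : ℂ) * τ ^ 2 + b * τ + c = 0

open Classical in
/-- The field `ℚ(τ)` if `τ` is quadratic, and the field `ℚ` otherwise. -/
noncomputable def endField (τ : ℂ) : Subfield ℂ := if Quad τ then Subfield.closure {τ} else ⊥

theorem alg_endField (τ : ℂ) : ∀ a ∈ endField τ, IsAlgebraic ℚ a := by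
  intro a ha
  have h1 : endField τ ≤ (algebraicClosure ℚ ℂ).toSubfield := by
    unfold endField
    split_ifs with h
    · rw [Subfield.closure_le]
      rintro _ rfl
      change _ ∈ algebraicClosure ℚ ℂ
      rw [mem_algebraicClosure_iff]
      obtain ⟨a, b, c, ha, h⟩ := h
      refine ⟨Polynomial.C (a : ℚ) * Polynomial.X ^ 2 + Polynomial.C (b : ℚ) * Polynomial.X +
        Polynomial.C (c : ℚ), ?_, ?_⟩
      · intro h0
        have h2 := congrArg (fun P : Polynomial ℚ => P.coeff 2) h0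
        simp only [Polynomial.coeff_add, Polynomial.coeff_C_mul, Polynomial.coeff_X_pow,
          Polynomial.coeff_X, Polynomial.coeff_C, Polynomial.coeff_zero] at h2
        norm_num at h2
        exact ha h2
      · simp only [map_add, map_mul, map_pow, Polynomial.aeval_C, Polynomial.aeval_X, eq_ratCast,
          Rat.cast_intCast]
        exact h
    · exact bot_le
  exact mem_algebraicClosure_iff.1 (h1 ha)

/-- the lattice points -/
noncomputable def lat (ω₁ ω₂ : ℂ) (x : ℤ × ℤ) : ℂ := (x.1 : ℂ) * ω₁ + (x.2 : ℂ) * ω₂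

theorem lat_inj {ω₁ ω₂ : ℂ} (h : LinearIndependent ℝ ![ω₁, ω₂]) {a b a' b' : ℝ}
    (he : (a : ℂ) * ω₁ + (b : ℂ) * ω₂ = (a' : ℂ) * ω₁ + (b' : ℂ) * ω₂) : a = a' ∧ b = b' := by
  have h1 := LinearIndependent.pair_iff.1 h (a - a') (b - b') (by
    rw [Complex.real_smul, Complex.real_smul]
    push_cast
    linear_combination he)
  exact ⟨sub_eq_zero.1 h1.1, sub_eq_zero.1 h1.2⟩

theorem exists_off {ω₁ ω₂ : ℂ} (h : LinearIndependent ℝ ![ω₁, ω₂]) {w : ℂ} (hw : w ≠ 0) :
    ∃ N : ℕ, 0 < N ∧ ∀ x : ℤ × ℤ, w / N ≠ lat ω₁ ω₂ x := by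
  by_cases h1 : ∃ x : ℤ × ℤ, w = lat ω₁ ω₂ x
  · obtain ⟨⟨a, b⟩, hab⟩ := h1
    obtain ⟨N, hN⟩ : ∃ N : ℕ, N = a.natAbs + b.natAbs + 1 := ⟨_, rfl⟩
    refine ⟨N, by omega, ?_⟩
    rintro ⟨a', b'⟩ hx
    have hN0 : (N : ℂ) ≠ 0 := by exact_mod_cast (by omega : N ≠ 0)
    rw [div_eq_iff hN0, hab] at hx
    unfold lat at hx
    simp only at hx
    have h2 := lat_inj h (a := a) (b := b) (a' := (N : ℝ) * a') (b' := (N : ℝ) * b') (by
        push_cast
        linear_combination hx)
    obtain ⟨h3, h4⟩ := h2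
    have h3' : a = (N : ℤ) * a' := by exact_mod_cast h3
    have h4' : b = (N : ℤ) * b' := by exact_mod_cast h4
    have h5 : a' = 0 := by
      by_contra h0
      have h6 := congrArg Int.natAbs h3'
      rw [Int.natAbs_mul, Int.natAbs_natCast] at h6
      have h7 : N ≤ N * a'.natAbs := Nat.le_mul_of_pos_right N (Int.natAbs_pos.2 h0)
      omega
    have h6 : b' = 0 := by
      by_contra h0
      have h6 := congrArg Int.natAbs h4'
      rw [Int.natAbs_mul, Int.natAbs_natCast] at h6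
      have h7 : N ≤ N * b'.natAbs := Nat.le_mul_of_pos_right N (Int.natAbs_pos.2 h0)
      omega
    rw [h5, mul_zero] at h3'
    rw [h6, mul_zero] at h4'
    apply hw
    rw [hab, h3', h4']
    simp [lat]
  · push Not at h1
    refine ⟨1, one_pos, fun x => ?_⟩
    rw [Nat.cast_one, div_one]
    exact h1 x

end Pool.Agent.N113.SA
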