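import Pool.Agent.N113.SA.Main

/-!
# Linearly independent numbers, additive maps which respect the inverses of the numbers in the span
-/

set_option autoImplicit false
set_option linter.unusedSectionVars false

namespace Pool.Agent.N113.SA

open Module

variable (K : Subfield ℂ) (W : Submodule K ℂ) (X : Set ℂ)

/-- the span of `W` and the numbers `t i` -/
noncomputable def VV (A : Tup) : Submodule K ℂ := W ⊔ Submodule.span K (Set.range A.t)

/-- the additive maps which vanish at the algebraic numbers, and are `K`-linear on the span and respect the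
inverses of the numbers in the span -/
def DD (A : Tup) : Submodule ℂ (ℂ →ₗ[ℚ] ℂ) where
  carrier := {D | (∀ a : ℂ, IsAlgebraic ℚ a → D a = 0) ∧
    ∀ v ∈ VV K W A, (∀ a ∈ K, D (a * v) = a * D v) ∧ D v⁻¹ = -D v / v ^ 2}
  zero_mem' := ⟨fun _ _ => rfl, fun v _ => ⟨fun a _ => by simp, by simp⟩⟩
  add_mem' := by
    rintro D D' ⟨h1, h2⟩ ⟨h3, h4⟩
    refine ⟨fun a ha => ?_, fun v hv => ⟨fun a ha => ?_, ?_⟩⟩
    · rw [LinearMap.add_apply, h1 a ha, h3 a ha, add_zero]
    · rw [LinearMap.add_apply, LinearMap.add_apply, (h2 v hv).1 a ha, (h4 v hv).1 a ha, mul_add]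
    · rw [LinearMap.add_apply, LinearMap.add_apply, (h2 v hv).2, (h4 v hv).2]
      ring
  smul_mem' := by
    rintro c D ⟨h1, h2⟩
    refine ⟨fun a ha => ?_, fun v hv => ⟨fun a ha => ?_, ?_⟩⟩
    · rw [LinearMap.smul_apply, h1 a ha, smul_zero]
    · rw [LinearMap.smul_apply, LinearMap.smul_apply, (h2 v hv).1 a ha, smul_eq_mul, smul_eq_mul]
      ring
    · rw [LinearMap.smul_apply, LinearMap.smul_apply, (h2 v hv).2, smul_eq_mul, smul_eq_mul]
      ring

/-- numbers in `X` which are linearly independent modulo `W` -/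
def Ind (A : Tup) : Prop := (∀ i, A.t i ∈ X) ∧
  ∀ c : A.κ → ℂ, (∀ i, c i ∈ K) → ∑ i, c i * A.t i ∈ W → ∀ i, c i = 0

variable {K W X}

theorem VV_mono {A B : Tup} {g : A.κ → B.κ} (hg : ∀ i, B.t (g i) = A.t i) :
    VV K W A ≤ VV K W B := by
  refine sup_le_sup_left (Submodule.span_mono ?_) _
  rintro _ ⟨i, rfl⟩
  exact ⟨g i, hg i⟩

theorem mem_VV (A : Tup) (i : A.κ) : A.t i ∈ VV K W A :=
  (le_sup_right : _ ≤ VV K W A) (Submodule.subset_span ⟨i, rfl⟩)

theorem sys : Sys (DD K W) :=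
  ⟨fun _ _ hD => hD.1, fun _ _ _ hg _ hD => ⟨hD.1, fun v hv => hD.2 v (VV_mono hg hv)⟩⟩

theorem der_mem (hK : ∀ a ∈ K, IsAlgebraic ℚ a) (A : Tup) (D : Derivation ℚ ℂ ℂ) :
    D.toLinearMap ∈ DD K W A := by
  have h1 : ∀ x y : ℂ, SK.Respects D.toLinearMap x y := by
    intro x y P hP
    have h2 := Pool.Agent.H248R5.derivation_aeval D ![x, y] P
    rw [hP, map_zero, Fin.sum_univ_two] at h2
    exact h2.symm
  have h2 : ∀ a : ℂ, IsAlgebraic ℚ a → D a = 0 := fun a ha => SK.det_alg0 (h1 a a) ha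
  refine ⟨h2, fun v _ => ⟨fun a ha => ?_, ?_⟩⟩
  · change D (a * v) = a * D v
    rw [Derivation.leibniz, h2 a (hK a ha), smul_eq_mul, smul_zero, add_zero]
  · change D v⁻¹ = -D v / v ^ 2
    rw [Derivation.leibniz_inv, smul_eq_mul, inv_pow, neg_mul, neg_div, div_eq_inv_mul]

theorem ind_add {A : Tup} (hA : Ind K W X A) {w : ℂ} (hw : w ∉ VV K W A) (hwX : w ∈ X) :
    Ind K W X (A.add w) := by
  refine ⟨?_, ?_⟩
  · rintro (_ | i)
    · exact hwX
    · exact hA.1 i
  · intro c hc hsum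
    rw [Fintype.sum_option] at hsum
    change c none * w + ∑ i, c (some i) * A.t i ∈ W at hsum
    have h0 : c none = 0 := by
      by_contra h0
      apply hw
      have h1 : ∑ i, c (some i) * A.t i ∈ VV K W A := by
        refine Submodule.sum_mem _ fun i _ => ?_
        exact (VV K W A).smul_mem (⟨c (some i), hc _⟩ : K) (mem_VV A i)
      have h2 : c none * w ∈ VV K W A := by
        have h3 : c none * w + ∑ i, c (some i) * A.t i ∈ VV K W A :=
          (le_sup_left : W ≤ VV K W A) hsum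
        have h4 := (VV K W A).sub_mem h3 h1
        rwa [add_sub_cancel_right] at h4
      have h5 := (VV K W A).smul_mem (⟨(c none)⁻¹, K.inv_mem (hc none)⟩ : K) h2
      have h6 : (⟨(c none)⁻¹, K.inv_mem (hc none)⟩ : K) • (c none * w) = w := by
        change (c none)⁻¹ * (c none * w) = w
        rw [inv_mul_cancel_left₀ h0]
      rwa [h6] at h5
    rw [h0, zero_mul, zero_add] at hsum
    have h1 := hA.2 (fun i => c (some i)) (fun i => hc _) hsum
    rintro (_ | i)
    · exact h0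
    · exact h1 i

variable {α π : Type} [Fintype α] [Fintype π] {F : ℂ → α → ℂ} {p : π → ℂ}

theorem addpt (hX : ∀ w, w ∉ W → ∃ N : ℕ, 0 < N ∧ w / N ∈ X) {A : Tup} (hA : Ind K W X A)
    {y : ℂ} (hy : Det F p (DD K W) A y) :
    ∃ B, Ext F p (DD K W) (Ind K W X) A B ∧ y ∈ VV K W B := by
  by_cases h : y ∈ VV K W A
  · exact ⟨A, Ext.refl hA, h⟩
  · obtain ⟨N, hN, hNX⟩ := hX y fun h1 => h ((le_sup_left : W ≤ VV K W A) h1)
    have hN0 : (N : ℂ) ≠ 0 := by exact_mod_cast hN.ne'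
    have hmul : ((N : K) : ℂ) * (y / N) = y := by
      push_cast
      field_simp
    have h2 : y / N ∉ VV K W A := fun h1 => h (by
      have h3 := (VV K W A).smul_mem (N : K) h1
      change ((N : K) : ℂ) * (y / N) ∈ VV K W A at h3
      rwa [hmul] at h3)
    refine ⟨A.add (y / N), ext_add sys (ind_add hA h2 hNX) fun D hD h0 => ?_, ?_⟩
    · have h3 : y / N = (1 / (N : ℚ)) • y := by
        rw [Rat.smul_def]
        push_cast
        ring
      rw [h3, map_smul, hy D hD h0, smul_zero]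
    · have h3 := (VV K W (A.add (y / N))).smul_mem (N : K) (mem_VV (A.add (y / N)) none)
      change ((N : K) : ℂ) * (y / N) ∈ _ at h3
      rwa [hmul] at h3

/-- **Squares.** -/
theorem squares (hX : ∀ w, w ∉ W → ∃ N : ℕ, 0 < N ∧ w / N ∈ X) :
    Squares F p (DD K W) (Ind K W X) := by
  intro A hA x hx
  by_cases hxa : IsAlgebraic ℚ x
  · refine ⟨A, Ext.refl hA, fun D hD => ?_⟩
    rw [hD.1 x hxa, hD.1 _ (hxa.pow 2), mul_zero]
  have hx0 : x ≠ 0 := by
    rintro rfl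
    exact hxa isAlgebraic_zero
  have hx1 : x + 1 ≠ 0 := by
    intro h
    apply hxa
    have h1 : x = -1 := eq_neg_of_add_eq_zero_left h
    rw [h1]
    exact isAlgebraic_one.neg
  obtain ⟨B1, hB1, hxB1⟩ := addpt hX hA hx
  have hx' : Det F p (DD K W) B1 (x + 1) := fun D hD h0 => by
    rw [map_add, hx.ext sys hB1 D hD h0, hD.1 1 isAlgebraic_one, add_zero]
  obtain ⟨B2, hB2, hxB2⟩ := addpt hX hB1.good hx'
  have hxB2' : x ∈ VV K W B2 := by
    obtain ⟨-, g, hg, -⟩ := hB2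
    exact VV_mono hg hxB1
  have hw1 : ∀ D ∈ DD K W B2, D ((x + 1)⁻¹ - x⁻¹) = -D x / (x + 1) ^ 2 + D x / x ^ 2 := by
    intro D hD
    rw [map_sub, (hD.2 _ hxB2).2, (hD.2 _ hxB2').2, map_add, hD.1 1 isAlgebraic_one, add_zero]
    ring
  have hw : Det F p (DD K W) B2 ((x + 1)⁻¹ - x⁻¹) := fun D hD h0 => by
    rw [hw1 D hD, hx.ext sys (hB1.trans sys hB2) D hD h0]
    simp
  obtain ⟨B3, hB3, hwB3⟩ := addpt hX hB2.good hw
  refine ⟨B3, (hB1.trans sys hB2).trans sys hB3, fun D hD => ?_⟩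
  have h1 := (hD.2 _ hwB3).2
  rw [hw1 D (hB3.adm sys hD)] at h1
  have hweq : (x + 1)⁻¹ - x⁻¹ = -1 / (x * (x + 1)) := by
    field_simp
    ring
  have h2 : x ^ 2 = -((x + 1)⁻¹ - x⁻¹)⁻¹ - x := by
    rw [hweq]
    field_simp
    ring
  rw [h2, map_sub, map_neg, h1, hweq]
  field_simp
  ring

/-- **The local statement.** -/
theorem lin_iff (hK : ∀ a ∈ K, IsAlgebraic ℚ a) (hX : ∀ w, w ∉ W → ∃ N : ℕ, 0 < N ∧ w / N ∈ X)
    (F : ℂ → α → ℂ) (p : π → ℂ) (A : Tup) (d : ℤ) :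
    (∀ B, Ind K W X B → Sub A B → ∃ s : Finset (B.κ × Option α ⊕ π),
      AlgebraicIndependent ℚ (fun i : s => co F p B.t i) ∧
        ((Fintype.card α * Fintype.card B.κ : ℕ) : ℤ) + d ≤ s.card) ↔
    (∀ B, Ind K W X B → Sub A B →
      ((Fintype.card α * Fintype.card B.κ : ℕ) : ℤ) + d ≤ finrank ℂ (Der F p (DD K W) B)) :=
  local_iff sys (der_mem hK) (squares hX) A d

end Pool.Agent.N113.SA
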