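import Pool.Agent.N113.SA.Ext
import Pool.Agent.N113.SK.Main

/-!
# The statement on transcendence degrees is equivalent to the statement on linear relations
-/

set_option autoImplicit false
set_option linter.unusedSectionVars false

namespace Pool.Agent.N113.SA

open Module MvPolynomial

variable {α π : Type} [Fintype α] [Fintype π] {F : ℂ → α → ℂ} {p : π → ℂ}
  {𝒟 : Tup → Submodule ℂ (ℂ →ₗ[ℚ] ℂ)} {G : Tup → Prop}

/-- after an extension, every admissible map takes at `x` the value given by the vector `c` -/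
def Rz (F : ℂ → α → ℂ) (p : π → ℂ) (𝒟 : Tup → Submodule ℂ (ℂ →ₗ[ℚ] ℂ)) (G : Tup → Prop)
    (A : Tup) (x : ℂ) (c : A.κ × Option α ⊕ π → ℂ) : Prop :=
  ∀ B, Ext F p 𝒟 G A B → ∃ C, Ext F p 𝒟 G B C ∧ ∀ D ∈ 𝒟 C,
    D x = ∑ y, c y * D (co F p A.t y)

theorem Rz.const (hS : Sys 𝒟) (A : Tup) (q : ℚ) : Rz F p 𝒟 G A q 0 := fun B hB =>
  ⟨B, Ext.refl hB.good, fun D hD => by
    have h1 : D (q : ℂ) = 0 := hS.alg _ D hD _ (isAlgebraic_algebraMap q)
    rw [h1]
    simp⟩

theorem Rz.coord (A : Tup) [DecidableEq (A.κ × Option α ⊕ π)] (y : A.κ × Option α ⊕ π) :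
    Rz F p 𝒟 G A (co F p A.t y) (Pi.single y 1) := fun B hB =>
  ⟨B, Ext.refl hB.good, fun D _ => by
    rw [Finset.sum_eq_single y]
    · rw [Pi.single_eq_same, one_mul]
    · intro x _ hx
      rw [Pi.single_eq_of_ne hx, zero_mul]
    · intro h
      exact absurd (Finset.mem_univ _) h⟩

theorem Rz.add (hS : Sys 𝒟) {A : Tup} {x y : ℂ} {c d : A.κ × Option α ⊕ π → ℂ}
    (hx : Rz F p 𝒟 G A x c) (hy : Rz F p 𝒟 G A y d) : Rz F p 𝒟 G A (x + y) (c + d) :=
  fun B hB => by
  obtain ⟨C, hC, h1⟩ := hx B hB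
  obtain ⟨C', hC', h2⟩ := hy C (hB.trans hS hC)
  refine ⟨C', hC.trans hS hC', fun D hD => ?_⟩
  rw [map_add, h1 D (hC'.adm hS hD), h2 D hD, ← Finset.sum_add_distrib]
  exact Finset.sum_congr rfl fun i _ => by rw [Pi.add_apply, add_mul]

theorem Rz.smul {A : Tup} {x : ℂ} {c : A.κ × Option α ⊕ π → ℂ} (hx : Rz F p 𝒟 G A x c) (q : ℚ) :
    Rz F p 𝒟 G A (q * x) ((q : ℂ) • c) := fun B hB => by
  obtain ⟨C, hC, h1⟩ := hx B hB
  refine ⟨C, hC, fun D hD => ?_⟩
  rw [← Rat.smul_def, map_smul, h1 D hD, Rat.smul_def, Finset.mul_sum]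
  exact Finset.sum_congr rfl fun i _ => by rw [Pi.smul_apply, smul_eq_mul, mul_assoc]

theorem Rz.congr {A : Tup} {x y : ℂ} {c d : A.κ × Option α ⊕ π → ℂ} (hx : Rz F p 𝒟 G A x c)
    (h1 : x = y) (h2 : c = d) : Rz F p 𝒟 G A y d := by rw [← h1, ← h2]; exact hx

/-- **Squares.** -/
theorem Rz.sq (hS : Sys 𝒟) (hQ : Squares F p 𝒟 G) {A : Tup} {x : ℂ}
    {c : A.κ × Option α ⊕ π → ℂ} (hx : Rz F p 𝒟 G A x c) :
    Rz F p 𝒟 G A (x ^ 2) ((2 * x) • c) := fun B hB => by
  obtain ⟨C, hC, h1⟩ := hx B hB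
  have hdet : Det F p 𝒟 C x := fun D hD h0 => by
    rw [h1 D hD]
    refine Finset.sum_eq_zero fun y _ => ?_
    rw [(hB.trans hS hC).vanish h0 y, mul_zero]
  obtain ⟨C', hC', h2⟩ := hQ C hC.good x hdet
  refine ⟨C', hC.trans hS hC', fun D hD => ?_⟩
  rw [h2 D hD, h1 D (hC'.adm hS hD), Finset.mul_sum]
  exact Finset.sum_congr rfl fun i _ => by rw [Pi.smul_apply, smul_eq_mul, mul_assoc, mul_assoc,
    mul_assoc]

/-- **Products.** -/
theorem Rz.mul (hS : Sys 𝒟) (hQ : Squares F p 𝒟 G) {A : Tup} {x y : ℂ} {c d : A.κ × Option α ⊕ π → ℂ} (hx : Rz F p 𝒟 G A x c)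
    (hy : Rz F p 𝒟 G A y d) : Rz F p 𝒟 G A (x * y) (x • d + y • c) := by
  have h1 := ((hx.add hS hy).sq hS hQ).smul (1 / 2)
  have h2 := (hx.sq hS hQ).smul (-(1 / 2))
  have h3 := (hy.sq hS hQ).smul (-(1 / 2))
  refine ((h1.add hS h2).add hS h3).congr ?_ ?_
  · push_cast
    ring
  · funext i
    simp only [Pi.add_apply, Pi.smul_apply, smul_eq_mul]
    push_cast
    ring

/-- **The chain rule.** -/
theorem Rz.poly (hS : Sys 𝒟) (hQ : Squares F p 𝒟 G) (A : Tup) (P : MvPolynomial (A.κ × Option α ⊕ π) ℚ) :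
    Rz F p 𝒟 G A (aeval (co F p A.t) P) fun y => aeval (co F p A.t) (pderiv y P) := by
  classical
  induction P using MvPolynomial.induction_on with
  | C q =>
    refine (Rz.const hS A q).congr (by rw [aeval_C, eq_ratCast]) ?_
    funext y
    rw [pderiv_C, map_zero]
    rfl
  | add p q hp hq =>
    refine (hp.add hS hq).congr (by rw [map_add]) ?_
    funext y
    rw [map_add, map_add]
    rfl
  | mul_X P i hp =>
    refine (hp.mul hS hQ (Rz.coord A i)).congr (by rw [map_mul, aeval_X]) ?_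
    funext y
    rw [pderiv_mul, map_add, map_mul, map_mul, aeval_X, pderiv_X, Pi.add_apply, Pi.smul_apply,
      Pi.smul_apply, smul_eq_mul, smul_eq_mul]
    by_cases h : i = y
    · subst h
      rw [Pi.single_eq_same, Pi.single_eq_same, map_one]
      ring
    · rw [Pi.single_eq_of_ne (Ne.symm h), Pi.single_eq_of_ne h, map_zero]
      ring

/-- finitely many polynomials -/
theorem Rz.polys (hS : Sys 𝒟) (hQ : Squares F p 𝒟 G) {A : Tup} (hA : G A) {τ : Type} (s : Finset τ)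
    (P : τ → MvPolynomial (A.κ × Option α ⊕ π) ℚ) :
    ∃ C, Ext F p 𝒟 G A C ∧ ∀ D ∈ 𝒟 C, ∀ j ∈ s,
      D (aeval (co F p A.t) (P j)) =
        ∑ y, aeval (co F p A.t) (pderiv y (P j)) * D (co F p A.t y) := by
  classical
  induction s using Finset.induction_on with
  | empty => exact ⟨A, Ext.refl hA, fun D _ j hj => absurd hj (Finset.notMem_empty j)⟩
  | insert a s _ ih =>
    obtain ⟨B, hB, h1⟩ := ih
    obtain ⟨C, hC, h2⟩ := Rz.poly hS hQ A (P a) B hB
    refine ⟨C, hB.trans hS hC, fun D hD j hj => ?_⟩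
    rcases Finset.mem_insert.1 hj with rfl | hj
    · exact h2 D hD
    · exact h1 D (hC.adm hS hD) j hj

/-- **Linear relations suffice**, for a fixed tuple and its extensions. -/
theorem exists_indep (hS : Sys 𝒟) (hQ : Squares F p 𝒟 G) {A : Tup} (hA : G A) (d : ℤ)
    (hL : ∀ C, Ext F p 𝒟 G A C →
      ((Fintype.card α * Fintype.card C.κ : ℕ) : ℤ) + d ≤ finrank ℂ (Der F p 𝒟 C)) :
    ∃ s : Finset (A.κ × Option α ⊕ π), AlgebraicIndependent ℚ (fun i : s => co F p A.t i) ∧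
      ((Fintype.card α * Fintype.card A.κ : ℕ) : ℤ) + d ≤ s.card := by
  classical
  obtain ⟨s, P, hs, hP⟩ := SK.exists_basis (co F p A.t)
  obtain ⟨C, hC, h3⟩ := Rz.polys (F := F) (p := p) hS hQ hA Finset.univ P
  obtain ⟨-, g, hg, h4⟩ := id hC
  let L : Der F p 𝒟 C →ₗ[ℂ] (s → ℂ) :=
    (LinearMap.funLeft ℂ ℂ (fun i : s => cmap g (i : A.κ × Option α ⊕ π))).domRestrict
      (Der F p 𝒟 C)
  have h5 := L.finrank_range_add_finrank_ker
  have h6 : finrank ℂ (LinearMap.range L) ≤ s.card :=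
    (Submodule.finrank_le _).trans (by rw [finrank_pi, Fintype.card_coe])
  have h7 : finrank ℂ (LinearMap.ker L) ≤ finrank ℂ (Ker F p 𝒟 C g) := by
    rw [← Submodule.finrank_map_subtype_eq]
    refine Submodule.finrank_mono ?_
    rintro _ ⟨v, hv, rfl⟩
    obtain ⟨D, hD, hvD'⟩ := v.2
    have hvD : (v : C.κ × Option α ⊕ π → ℂ) = fun x => D (co F p C.t x) := hvD'.symm
    refine (mem_Ker F p 𝒟 hg _).2 ⟨D, hD, hvD, fun x => ?_⟩
    have h8 : ∀ y ∈ s, D (co F p A.t y) = 0 := by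
      intro y hy
      have h9 := congrFun (LinearMap.mem_ker.1 hv) ⟨y, hy⟩
      change (v : C.κ × Option α ⊕ π → ℂ) (cmap g y) = 0 at h9
      rw [hvD] at h9
      change D (co F p C.t (cmap g y)) = 0 at h9
      rw [co_comp F p hg] at h9
      exact h9
    by_cases hx : x ∈ s
    · exact h8 x hx
    · obtain ⟨h9, h10, h11⟩ := hP x hx
      have h12 := h3 D hD x (Finset.mem_univ _)
      rw [h9, map_zero, Finset.sum_eq_single x] at h12
      · exact (mul_eq_zero.1 h12.symm).resolve_left h10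
      · intro y _ hyx
        by_cases hy : y ∈ s
        · rw [h8 y hy, mul_zero]
        · rw [h11 y hy hyx, map_zero, zero_mul]
      · intro h
        exact absurd (Finset.mem_univ _) h
  have h8 := hL C hC
  refine ⟨s, hs, ?_⟩
  zify at h4 h5 h6 h7
  push_cast at h8 ⊢
  linarith

/-- algebraically independent coordinates give linearly independent vectors -/
theorem card_le_finrank (hD : ∀ A, ∀ D : Derivation ℚ ℂ ℂ, D.toLinearMap ∈ 𝒟 A) (A : Tup)
    {σ : Type} [Fintype σ] (x : σ → A.κ × Option α ⊕ π)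
    (hx : AlgebraicIndependent ℚ fun i => co F p A.t (x i)) :
    Fintype.card σ ≤ finrank ℂ (Der F p 𝒟 A) := by
  classical
  choose D hD' using fun i => Pool.Agent.H248R6.exists_der _ hx i
  let b : σ → Der F p 𝒟 A := fun i =>
    ⟨fun y => D i (co F p A.t y), (D i).toLinearMap, hD A (D i), rfl⟩
  have hb : LinearIndependent ℂ b := by
    rw [Fintype.linearIndependent_iff]
    intro a ha k
    have h3 := congrFun (congrArg (fun v : Der F p 𝒟 A => (v : A.κ × Option α ⊕ π → ℂ)) ha) (x k)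
    simp only [Submodule.coe_sum, Submodule.coe_smul, Finset.sum_apply, Pi.smul_apply,
      smul_eq_mul, b, Submodule.coe_zero, Pi.zero_apply] at h3
    rw [Finset.sum_eq_single k] at h3
    · rw [(hD' k k).1 rfl, mul_one] at h3
      exact h3
    · intro i _ hik
      rw [(hD' i k).2 hik, mul_zero]
    · intro h
      exact absurd (Finset.mem_univ _) h
  exact hb.fintype_card_le_finrank

/-- `B` contains the points of `A` -/
def Sub (A B : Tup) : Prop := ∃ g : A.κ → B.κ, ∀ i, B.t (g i) = A.t i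

/-- **The local statement.** -/
theorem local_iff (hS : Sys 𝒟) (hD : ∀ A, ∀ D : Derivation ℚ ℂ ℂ, D.toLinearMap ∈ 𝒟 A)
    (hQ : Squares F p 𝒟 G) (A : Tup) (d : ℤ) :
    (∀ B, G B → Sub A B → ∃ s : Finset (B.κ × Option α ⊕ π),
      AlgebraicIndependent ℚ (fun i : s => co F p B.t i) ∧
        ((Fintype.card α * Fintype.card B.κ : ℕ) : ℤ) + d ≤ s.card) ↔
    (∀ B, G B → Sub A B →
      ((Fintype.card α * Fintype.card B.κ : ℕ) : ℤ) + d ≤ finrank ℂ (Der F p 𝒟 B)) := by
  constructor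
  · intro h B hB hAB
    obtain ⟨s, hs, h1⟩ := h B hB hAB
    have h2 := card_le_finrank hD B (fun i : s => (i : B.κ × Option α ⊕ π)) hs
    rw [Fintype.card_coe] at h2
    have h3 : (s.card : ℤ) ≤ finrank ℂ (Der F p 𝒟 B) := by exact_mod_cast h2
    exact h1.trans h3
  · rintro h B hB ⟨g, hg⟩
    refine exists_indep hS hQ hB d ?_
    rintro C ⟨hC, g', hg', -⟩
    exact h C hC ⟨g' ∘ g, fun i => by rw [Function.comp_apply, hg', hg]⟩

/-- renaming the coordinates -/
theorem finrank_names (A : Tup) {σ : Type} [Fintype σ]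
    (e : A.κ × Option α ⊕ π ≃ σ) (y : σ → ℂ) (hy : ∀ x, y (e x) = co F p A.t x)
    (S : Submodule ℂ (σ → ℂ))
    (hS : ∀ v, v ∈ S ↔ ∃ D ∈ 𝒟 A, v = fun s => D (y s)) :
    finrank ℂ S = finrank ℂ (Der F p 𝒟 A) := by
  have h1 : Der F p 𝒟 A = S.map (LinearEquiv.funCongrLeft ℂ ℂ e).toLinearMap := by
    ext v
    constructor
    · rintro ⟨D, hD, rfl⟩
      refine ⟨fun s => D (y s), (hS _).2 ⟨D, hD, rfl⟩, ?_⟩
      funext x
      exact congrArg D (hy x)
    · rintro ⟨w, hw, rfl⟩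
      obtain ⟨D, hD, rfl⟩ := (hS w).1 hw
      refine ⟨D, hD, ?_⟩
      funext x
      exact congrArg D (hy x).symm
  rw [h1]
  exact (LinearEquiv.finrank_map_eq (LinearEquiv.funCongrLeft ℂ ℂ e) S).symm

theorem indep_names {κ σ : Type} [Fintype κ] [Fintype σ] (t : κ → ℂ)
    (e : κ × Option α ⊕ π ≃ σ) (y : σ → ℂ) (hy : ∀ x, y (e x) = co F p t x) (N : ℤ) :
    (∃ s : Finset (κ × Option α ⊕ π), AlgebraicIndependent ℚ (fun i : s => co F p t i) ∧
      N ≤ s.card) ↔
    ∃ s : Finset σ, AlgebraicIndependent ℚ (fun i : s => y i) ∧ N ≤ s.card := by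
  constructor
  · rintro ⟨s, hs, hN⟩
    refine ⟨s.map e.toEmbedding, ?_, by rw [Finset.card_map]; exact hN⟩
    have h1 : ∀ i : ↥(s.map e.toEmbedding), e.symm i ∈ s := by
      rintro ⟨i, hi⟩
      obtain ⟨x, hx, rfl⟩ := Finset.mem_map.1 hi
      change e.symm (e x) ∈ s
      rw [e.symm_apply_apply]
      exact hx
    have h2 := hs.comp (fun i : ↥(s.map e.toEmbedding) => (⟨e.symm i, h1 i⟩ : s))
      (fun i k h => Subtype.ext (e.symm.injective (congrArg Subtype.val h)))
    have h3 : (fun i : ↥(s.map e.toEmbedding) => y i) = (fun i : s => co F p t i) ∘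
        (fun i : ↥(s.map e.toEmbedding) => (⟨e.symm i, h1 i⟩ : s)) := by
      funext i
      change y i = co F p t (e.symm i)
      rw [← hy, e.apply_symm_apply]
    rw [h3]
    exact h2
  · rintro ⟨s, hs, hN⟩
    refine ⟨s.map e.symm.toEmbedding, ?_, by rw [Finset.card_map]; exact hN⟩
    have h1 : ∀ i : ↥(s.map e.symm.toEmbedding), e i ∈ s := by
      rintro ⟨i, hi⟩
      obtain ⟨x, hx, rfl⟩ := Finset.mem_map.1 hi
      change e (e.symm x) ∈ s
      rw [e.apply_symm_apply]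
      exact hx
    have h2 := hs.comp (fun i : ↥(s.map e.symm.toEmbedding) => (⟨e i, h1 i⟩ : s))
      (fun i k h => Subtype.ext (e.injective (congrArg Subtype.val h)))
    have h3 : (fun i : ↥(s.map e.symm.toEmbedding) => co F p t i) = (fun i : s => y i) ∘
        (fun i : ↥(s.map e.symm.toEmbedding) => (⟨e i, h1 i⟩ : s)) := by
      funext i
      change co F p t i = y (e i)
      rw [← hy]
    rw [h3]
    exact h2

/-- `N` independent members of a finite family, as a map -/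
theorem indep_fin {σ : Type} [Fintype σ] (y : σ → ℂ) (N : ℕ) :
    (∃ s : Finset σ, AlgebraicIndependent ℚ (fun i : s => y i) ∧ N ≤ s.card) ↔
    ∃ f : Fin N → σ, AlgebraicIndependent ℚ (fun k => y (f k)) := by
  classical
  constructor
  · rintro ⟨s, hs, hN⟩
    obtain ⟨e⟩ := Function.Embedding.nonempty_of_card_le (α := Fin N) (β := s) (by
      rw [Fintype.card_fin, Fintype.card_coe]
      exact hN)
    exact ⟨fun k => (e k : σ), hs.comp e e.injective⟩
  · rintro ⟨f, hf⟩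
    have hfi : Function.Injective f := fun i k h => hf.injective (by
      rw [h])
    refine ⟨Finset.univ.image f, ?_, by
      rw [Finset.card_image_of_injective _ hfi, Finset.card_univ, Fintype.card_fin]⟩
    have h1 : ∀ i : ↥(Finset.univ.image f), ∃ k, f k = i := fun i => by
      obtain ⟨k, -, hk⟩ := Finset.mem_image.1 i.2
      exact ⟨k, hk⟩
    choose g hg using h1
    have h2 := hf.comp g (fun i k h => Subtype.ext (by rw [← hg i, ← hg k, h]))
    have h3 : (fun i : ↥(Finset.univ.image f) => y i) = (fun k => y (f k)) ∘ g := by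
      funext i
      change y i = y (f (g i))
      rw [hg]
    rw [h3]
    exact h2

end Pool.Agent.N113.SA
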